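import Pool.Agent.P8H96.TTS.Ser

/-!
# The truncated theta series with triangular exponents has non-negative coefficients

Q1 of MP_1cbc82_co, answered positively for all `k ≥ 1`:
`F_k(q) = ∏_{i ≥ 1} (1 + q ^ i) * ∑_{n ≥ 0} (-1) ^ T_n * q ^ T_{n + 2 k}`, `T_n = n (n + 1) / 2`,
has non-negative coefficients.

The infinite product and the infinite series are those of the ring of formal power series over `ℤ`
with the topology of coefficientwise convergence (`PowerSeries.WithPiTopology`, `ℤ` discrete);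
their convergence is part of the statement.

Proof. `∏_{m ≥ 0} (1 + q ^ (j 2 ^ m)) = 1 / (1 - q ^ j)` for `j = 1, 3, 5`, so that `F_k` is a
product of binomials `1 + q ^ i` and of `∑ (-1) ^ T_n q ^ T_{n + 2 k} / ((1-q)(1-q^3)(1-q^5))`. The
coefficients of the last series are signed sums of a quasi-polynomial of degree two, which are
evaluated by summation by parts and shown to be non-negative, up to finitely many pairs `(k, n)` which
are checked by computation.
-/

set_option autoImplicit false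

namespace Pool.Agent.Results.MP_1cbc82_co.NonNegative

open PowerSeries
open scoped PowerSeries.WithPiTopology

/-- For every `k ≥ 1` the product `∏_{i ≥ 1} (1 + q ^ i)` and the series
`∑_{n ≥ 0} (-1) ^ T_n * q ^ T_{n + 2 k}` converge in `ℤ⟦q⟧`, and all coefficients of
`F_k(q) = ∏_{i ≥ 1} (1 + q ^ i) * ∑_{n ≥ 0} (-1) ^ T_n * q ^ T_{n + 2 k}` are non-negative. -/
theorem result (k : ℕ) (hk : 1 ≤ k) :
    Multipliable (fun i : ℕ => (1 + X ^ (i + 1) : ℤ⟦X⟧)) ∧
    Summable (fun n : ℕ => (C ((-1 : ℤ) ^ (n * (n + 1) / 2)) *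
      X ^ ((n + 2 * k) * (n + 2 * k + 1) / 2) : ℤ⟦X⟧)) ∧
    ∀ N : ℕ, 0 ≤ coeff N ((∏' i : ℕ, (1 + X ^ (i + 1) : ℤ⟦X⟧)) *
      ∑' n : ℕ, (C ((-1 : ℤ) ^ (n * (n + 1) / 2)) *
        X ^ ((n + 2 * k) * (n + 2 * k + 1) / 2) : ℤ⟦X⟧)) :=
  ⟨Pool.Agent.P8H96.TTS.multipliable, Pool.Agent.P8H96.TTS.summable k,
    Pool.Agent.P8H96.TTS.main k hk _ _ Pool.Agent.P8H96.TTS.multipliable.hasProd
      (Pool.Agent.P8H96.TTS.summable k).hasSum⟩

end Pool.Agent.Results.MP_1cbc82_co.NonNegative
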